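import Mathlib

/-!
# Planarization constants of graphs of bounded degree: definitions (problem MP_8e7d5e_co)
-/

set_option autoImplicit false

namespace Pool.Agent.Helper60.Plz

/-- `K` is a minor of `G`: there are pairwise disjoint (nonempty) vertex sets of `G` that induce
connected subgraphs, one for every vertex of `K`, such that adjacent vertices of `K` have sets
joined by an edge of `G`. -/
def HasMinor {W V : Type} (K : SimpleGraph W) (G : SimpleGraph V) : Prop :=
  ∃ f : W → Set V, (∀ w, (G.induce (f w)).Connected) ∧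
    (∀ w w', w ≠ w' → Disjoint (f w) (f w')) ∧
    ∀ w w', K.Adj w w' → ∃ x ∈ f w, ∃ y ∈ f w', G.Adj x y

/-- A graph is planar if neither `K_5` nor `K_{3,3}` is a minor of it (Wagner's theorem). -/
def IsPlanar {V : Type} (G : SimpleGraph V) : Prop :=
  ¬ HasMinor (⊤ : SimpleGraph (Fin 5)) G ∧
    ¬ HasMinor (completeBipartiteGraph (Fin 3) (Fin 3)) G

/-- The least number of vertices whose deletion leaves a planar graph. -/
noncomputable def planarization {V : Type} (G : SimpleGraph V) : ℕ :=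
  sInf {k | ∃ X : Finset V, X.card = k ∧ IsPlanar (G.induce {v | v ∉ X})}

/-- The constant `p_d`: the least `μ` such that for every `ε > 0` every sufficiently large
connected graph `G` of maximum degree at most `d` has `p(G) ≤ (μ + ε) |V(G)|`. -/
noncomputable def pd (d : ℕ) : ℝ :=
  sInf {μ : ℝ | ∀ ε > 0, ∃ N : ℕ, ∀ (V : Type) (_ : Fintype V) (G : SimpleGraph V),
    G.Connected → (∀ v, (G.neighborSet v).ncard ≤ d) → N ≤ Fintype.card V →
      (planarization G : ℝ) ≤ (μ + ε) * Fintype.card V}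

/-! ### Tools -/

/-- Two vertex sets are joined by an edge. -/
def Touch {V : Type} (H : SimpleGraph V) (P Q : Finset V) : Prop := ∃ x ∈ P, ∃ y ∈ Q, H.Adj x y

/-- A family of pairwise disjoint, nonempty, connected vertex sets. -/
structure Fam {V : Type} (H : SimpleGraph V) (F : Finset (Finset V)) : Prop where
  conn : ∀ P ∈ F, (H.induce (P : Set V)).Connected
  disj : ∀ P ∈ F, ∀ Q ∈ F, P ≠ Q → Disjoint P Q

open Classical in
/-- The number of ordered pairs of different members of the family joined by an edge. -/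
noncomputable def pairs {V : Type} (H : SimpleGraph V) (F : Finset (Finset V)) : ℕ :=
  ((F ×ˢ F).filter fun p => p.1 ≠ p.2 ∧ Touch H p.1 p.2).card

open Classical in
/-- The number of ordered pairs of adjacent vertices of `P` (twice the number of edges). -/
noncomputable def eIn {V : Type} (H : SimpleGraph V) (P : Finset V) : ℕ :=
  ((P ×ˢ P).filter fun p => H.Adj p.1 p.2).card

/-- A `K_r` model all of whose sets lie in the union of the family and contain a member of it. -/
def Model {V : Type} (H : SimpleGraph V) (F : Finset (Finset V)) (r : ℕ) : Prop :=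
  ∃ f : Fin r → Finset V, (∀ i, (H.induce (f i : Set V)).Connected) ∧
    (∀ i j, i ≠ j → Disjoint (f i) (f j)) ∧ (∀ i j, i ≠ j → Touch H (f i) (f j)) ∧
    (∀ i, ∃ P ∈ F, P ⊆ f i) ∧ ∀ i, ∀ x ∈ f i, ∃ P ∈ F, x ∈ P

/-- The graph whose vertices are the ends and whose edges are the elements of `S`. -/
def endGraph {X U : Type} (p q : X → U) (S : Set X) : SimpleGraph U where
  Adj u v := u ≠ v ∧ ∃ x ∈ S, (p x = u ∧ q x = v) ∨ (p x = v ∧ q x = u)
  symm := ⟨fun u v h => ⟨h.1.symm, by obtain ⟨x, hx, h2⟩ := h.2; exact ⟨x, hx, h2.symm⟩⟩⟩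
  loopless := ⟨fun u h => h.1 rfl⟩

/-! ### Goals -/

/-- Packet A: Mader's argument for families of connected sets. -/
def GoalA : Prop :=
  ∀ (V : Type) (H : SimpleGraph V) (r : ℕ) (F : Finset (Finset V)), Fam H F → F.Nonempty →
    2 ^ r * F.card ≤ pairs H F → Model H F (r + 2)

/-- Packet B: partition of a connected set into connected sets of bounded size. -/
def GoalB : Prop :=
  ∀ (V : Type) (_ : Fintype V) (H : SimpleGraph V) (D m : ℕ), 1 ≤ m →
    (∀ v, (H.neighborSet v).ncard ≤ D) → ∀ W : Finset V, (H.induce (W : Set V)).Connected →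
    m ≤ W.card → ∃ F : Finset (Finset V), Fam H F ∧ (∀ x, x ∈ W ↔ ∃ P ∈ F, x ∈ P) ∧
      ∀ P ∈ F, m ≤ P.card ∧ P.card ≤ (D + 1) * m

/-- Packet C: locally sparse graphs with many edges have a `K_5` model. -/
def GoalC : Prop :=
  ∀ (V : Type) (_ : Fintype V) (H : SimpleGraph V) (D m g : ℕ), 1 ≤ m →
    (∀ v, (H.neighborSet v).ncard ≤ D) → 2 * ((D + 1) * m) ≤ g →
    (∀ P : Finset V, P.Nonempty → P.card ≤ g → eIn H P + 2 ≤ 2 * P.card) →
    ∀ W : Finset V, W.Nonempty → 2 * (m + 3) * W.card ≤ m * eIn H W →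
      ∃ f : Fin 5 → Finset V, (∀ i, (H.induce (f i : Set V)).Connected) ∧
        (∀ i j, i ≠ j → Disjoint (f i) (f j)) ∧ ∀ i j, i ≠ j → Touch H (f i) (f j)

/-- Packet D: finite groups generated by involutions without short relations. -/
def GoalD : Prop :=
  ∀ (E : Type) (_ : Fintype E) (g : ℕ), ∃ (Γ : Type) (_ : Group Γ) (_ : Fintype Γ) (π : E → Γ),
    (∀ e, π e * π e = 1) ∧
    ∀ l : List E, l ≠ [] → l.length ≤ g → l.IsChain (· ≠ ·) → (l.map π).prod ≠ 1

/-- Packet E: a graph without short non-backtracking closed walks is locally sparse. -/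
def GoalE : Prop :=
  ∀ (V : Type) (_ : Fintype V) (H : SimpleGraph V) (g : ℕ),
    (∀ (n : ℕ) (v : ℕ → V), 1 ≤ n → n ≤ g → (∀ i < n, H.Adj (v i) (v (i + 1))) →
      (∀ i, i + 1 < n → v i ≠ v (i + 2)) → v n ≠ v 0) →
    ∀ P : Finset V, P.Nonempty → P.card ≤ g → eIn H P + 2 ≤ 2 * P.card

/-- Packet F: a `K_5` model in the graph of ends gives a `K_5` minor of the line graph. -/
def GoalF : Prop :=
  ∀ (X U : Type) (p q : X → U) (G : SimpleGraph X) (S : Set X), (∀ x, p x ≠ q x) →
    (∀ x y, x ≠ y → (p x = p y ∨ p x = q y ∨ q x = p y ∨ q x = q y) → G.Adj x y) →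
    ∀ f : Fin 5 → Set U, (∀ i, ((endGraph p q S).induce (f i)).Connected) →
    (∀ i j, i ≠ j → Disjoint (f i) (f j)) →
    (∀ i j, i ≠ j → ∃ u ∈ f i, ∃ v ∈ f j, (endGraph p q S).Adj u v) →
    HasMinor (⊤ : SimpleGraph (Fin 5)) (G.induce S)

/-! ### The graphs of the lower bound -/

section Cover

variable {a b : ℕ} {Γ : Type} [Group Γ]

/-- The left end of the vertex `(i, j, γ)`. -/
def lend (x : Fin b × Fin a × Γ) : (Fin b × Γ) ⊕ (Fin a × Γ) := Sum.inl (x.1, x.2.2)

/-- The right end of the vertex `(i, j, γ)`. -/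
def rend (π : Fin b × Fin a → Γ) (x : Fin b × Fin a × Γ) : (Fin b × Γ) ⊕ (Fin a × Γ) :=
  Sum.inr (x.2.1, x.2.2 * π (x.1, x.2.1))

/-- The line graph of the cover of `K_{b,a}` with voltages `π`: two vertices are adjacent if they
have the same left end or the same right end. -/
def lg (π : Fin b × Fin a → Γ) : SimpleGraph (Fin b × Fin a × Γ) where
  Adj x y := x ≠ y ∧ (lend x = lend y ∨ rend π x = rend π y)
  symm := ⟨fun x y h => ⟨h.1.symm, h.2.imp Eq.symm Eq.symm⟩⟩
  loopless := ⟨fun x h => h.1 rfl⟩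

end Cover

/-- Packet G: degrees. -/
def GoalG : Prop :=
  ∀ (a b : ℕ) (Γ : Type) (_ : Group Γ) (_ : Fintype Γ) (π : Fin b × Fin a → Γ),
    (∀ e, π e * π e = 1) →
    (∀ x, ((lg π).neighborSet x).ncard ≤ a + b - 2) ∧
    ∀ u, ((endGraph lend (rend π) Set.univ).neighborSet u).ncard ≤ a + b

/-- Packet H: no short closed non-backtracking walks in the cover. -/
def GoalH : Prop :=
  ∀ (a b g : ℕ) (Γ : Type) (_ : Group Γ) (_ : Fintype Γ) (π : Fin b × Fin a → Γ),
    (∀ e, π e * π e = 1) →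
    (∀ l : List (Fin b × Fin a), l ≠ [] → l.length ≤ g → l.IsChain (· ≠ ·) →
      (l.map π).prod ≠ 1) →
    ∀ (n : ℕ) (v : ℕ → (Fin b × Γ) ⊕ (Fin a × Γ)), 1 ≤ n → n ≤ g →
      (∀ i < n, (endGraph lend (rend π) Set.univ).Adj (v i) (v (i + 1))) →
      (∀ i, i + 1 < n → v i ≠ v (i + 2)) → v n ≠ v 0

open Classical in
/-- Packet I: counting ends in a union of components, and size of a component. -/
def GoalI : Prop :=
  ∀ (a b g : ℕ) (Γ : Type) (_ : Group Γ) (_ : Fintype Γ) (π : Fin b × Fin a → Γ), 2 ≤ a → 2 ≤ b →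
    (∀ e, π e * π e = 1) →
    (∀ (n : ℕ) (v : ℕ → (Fin b × Γ) ⊕ (Fin a × Γ)), 1 ≤ n → n ≤ g →
      (∀ i < n, (endGraph lend (rend π) Set.univ).Adj (v i) (v (i + 1))) →
      (∀ i, i + 1 < n → v i ≠ v (i + 2)) → v n ≠ v 0) →
    ∀ C : Finset (Fin b × Fin a × Γ), C.Nonempty → (∀ x ∈ C, ∀ y, (lg π).Adj x y → y ∈ C) →
      a * (C.image lend).card = C.card ∧ b * (C.image (rend π)).card = C.card ∧
        g + 1 ≤ (C.image lend ∪ C.image (rend π)).card

end Pool.Agent.Helper60.Plz
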