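import Pool.Agent.Helper60.Plz.Defs

/-!
# Assembly of the lower bound `1 - 1/a - 1/b ≤ p_{a+b-2}`
-/

set_option autoImplicit false

namespace Pool.Agent.Helper60.Plz

lemma HasMinor.of_embedding {W V V' : Type} {K : SimpleGraph W} {G : SimpleGraph V}
    {G' : SimpleGraph V'} (φ : G ↪g G') (h : HasMinor K G) : HasMinor K G' := by
  obtain ⟨f, hc, hd, ha⟩ := h
  refine ⟨fun w => φ '' f w, fun w => ?_, fun w w' hw => ?_, fun w w' hw => ?_⟩
  · have e : G.induce (f w) ≃g G'.induce (φ '' f w) :=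
      { toEquiv := Equiv.Set.image φ (f w) φ.injective
        map_rel_iff' := by
          intro x y
          exact φ.map_adj_iff }
    exact e.connected_iff.mp (hc w)
  · exact Set.disjoint_image_of_injective φ.injective (hd w w' hw)
  · obtain ⟨x, hx, y, hy, hxy⟩ := ha w w' hw
    exact ⟨φ x, ⟨x, hx, rfl⟩, φ y, ⟨y, hy, rfl⟩, φ.map_adj_iff.mpr hxy⟩

lemma isPlanar_of_isEmpty {V : Type} (G : SimpleGraph V) [IsEmpty V] : IsPlanar G := by
  constructor
  · rintro ⟨f, hc, -, -⟩
    obtain ⟨x⟩ := (hc 0).nonempty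
    exact IsEmpty.false x.1
  · rintro ⟨f, hc, -, -⟩
    obtain ⟨x⟩ := (hc (Sum.inl 0)).nonempty
    exact IsEmpty.false x.1

lemma planarization_set_nonempty {V : Type} [Fintype V] (G : SimpleGraph V) :
    {k | ∃ X : Finset V, X.card = k ∧ IsPlanar (G.induce {v | v ∉ X})}.Nonempty := by
  refine ⟨Fintype.card V, Finset.univ, Finset.card_univ, ?_⟩
  have : IsEmpty {v : V | v ∉ (Finset.univ : Finset V)} := ⟨fun x => x.2 (Finset.mem_univ _)⟩
  exact isPlanar_of_isEmpty _

lemma planarization_le_card {V : Type} [Fintype V] (G : SimpleGraph V) :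
    planarization G ≤ Fintype.card V := by
  apply Nat.sInf_le
  refine ⟨Finset.univ, Finset.card_univ, ?_⟩
  have : IsEmpty {v : V | v ∉ (Finset.univ : Finset V)} := ⟨fun x => x.2 (Finset.mem_univ _)⟩
  exact isPlanar_of_isEmpty _

lemma pd_set_nonempty (d : ℕ) : {μ : ℝ | ∀ ε > 0, ∃ N : ℕ, ∀ (V : Type) (_ : Fintype V)
    (G : SimpleGraph V), G.Connected → (∀ v, (G.neighborSet v).ncard ≤ d) →
      N ≤ Fintype.card V → (planarization G : ℝ) ≤ (μ + ε) * Fintype.card V}.Nonempty := by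
  refine ⟨1, fun ε hε => ⟨0, fun V _ G _ _ _ => ?_⟩⟩
  have h1 : (planarization G : ℝ) ≤ Fintype.card V := by exact_mod_cast planarization_le_card G
  have h2 : (0 : ℝ) ≤ Fintype.card V := Nat.cast_nonneg _
  nlinarith

lemma eIn_mono {V : Type} {H H' : SimpleGraph V} (h : H ≤ H') (P : Finset V) :
    eIn H P ≤ eIn H' P := by
  classical
  unfold eIn
  apply Finset.card_le_card
  intro p hp
  simp only [Finset.mem_filter] at hp ⊢
  exact ⟨hp.1, h hp.2⟩

lemma endGraph_mono {X U : Type} (p q : X → U) {S T : Set X} (h : S ⊆ T) :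
    endGraph p q S ≤ endGraph p q T := by
  intro u v huv
  obtain ⟨h1, x, hx, h2⟩ := huv
  exact ⟨h1, x, h hx, h2⟩

variable {a b : ℕ} {Γ : Type} [Group Γ]

lemma two_mul_card_le_eIn (π : Fin b × Fin a → Γ) (S : Finset (Fin b × Fin a × Γ))
    (W : Finset ((Fin b × Γ) ⊕ (Fin a × Γ))) (hW : ∀ x ∈ S, lend x ∈ W ∧ rend π x ∈ W) :
    2 * S.card ≤ eIn (endGraph lend (rend π) (S : Set (Fin b × Fin a × Γ))) W := by
  classical
  have hne : ∀ x : Fin b × Fin a × Γ, lend x ≠ rend π x := by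
    intro x; simp [lend, rend]
  have hinj1 : Function.Injective fun x : Fin b × Fin a × Γ => (lend x, rend π x) := by
    rintro ⟨i, j, c⟩ ⟨i', j', c'⟩ h
    simp only [lend, rend, Prod.mk.injEq, Sum.inl.injEq, Sum.inr.injEq] at h
    obtain ⟨⟨rfl, rfl⟩, rfl, -⟩ := h
    rfl
  have hinj2 : Function.Injective fun x : Fin b × Fin a × Γ => (rend π x, lend x) := by
    intro x y h
    apply hinj1
    simp only [Prod.mk.injEq] at h ⊢
    exact ⟨h.2, h.1⟩
  have hsub : S.image (fun x => (lend x, rend π x)) ∪ S.image (fun x => (rend π x, lend x)) ⊆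
      (W ×ˢ W).filter fun p => (endGraph lend (rend π) (S : Set (Fin b × Fin a × Γ))).Adj p.1 p.2 := by
    intro p hp
    rw [Finset.mem_union, Finset.mem_image, Finset.mem_image] at hp
    rw [Finset.mem_filter, Finset.mem_product]
    rcases hp with ⟨x, hx, rfl⟩ | ⟨x, hx, rfl⟩
    · exact ⟨hW x hx, hne x, x, hx, Or.inl ⟨rfl, rfl⟩⟩
    · exact ⟨(hW x hx).symm, (hne x).symm, x, hx, Or.inr ⟨rfl, rfl⟩⟩
  have hdisj : Disjoint (S.image (fun x => (lend x, rend π x)))
      (S.image (fun x => (rend π x, lend x))) := by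
    rw [Finset.disjoint_left]
    intro p hp hq
    rw [Finset.mem_image] at hp hq
    obtain ⟨x, -, rfl⟩ := hp
    obtain ⟨y, -, hy⟩ := hq
    simp [lend, rend] at hy
  have h1 := Finset.card_le_card hsub
  rw [Finset.card_union_of_disjoint hdisj, Finset.card_image_of_injective _ hinj1,
    Finset.card_image_of_injective _ hinj2] at h1
  unfold eIn
  convert h1 using 1
  ring

/-- Every large induced subgraph of a component of the line graph of the cover has a `K_5`
minor. -/
lemma exists_minor (hC : GoalC) (hE : GoalE) (hF : GoalF) (hG : GoalG) [Fintype Γ]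
    (π : Fin b × Fin a → Γ) (hπ : ∀ e, π e * π e = 1) (m g : ℕ) (hm : 1 ≤ m)
    (hg : 2 * ((a + b + 1) * m) ≤ g)
    (hnb : ∀ (n : ℕ) (v : ℕ → (Fin b × Γ) ⊕ (Fin a × Γ)), 1 ≤ n → n ≤ g →
      (∀ i < n, (endGraph lend (rend π) Set.univ).Adj (v i) (v (i + 1))) →
      (∀ i, i + 1 < n → v i ≠ v (i + 2)) → v n ≠ v 0)
    (S : Finset (Fin b × Fin a × Γ)) (W : Finset ((Fin b × Γ) ⊕ (Fin a × Γ)))
    (hW : ∀ x ∈ S, lend x ∈ W ∧ rend π x ∈ W) (hWne : W.Nonempty)
    (hcard : (m + 3) * W.card ≤ m * S.card) :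
    HasMinor (⊤ : SimpleGraph (Fin 5)) ((lg π).induce (S : Set (Fin b × Fin a × Γ))) := by
  classical
  have hle : endGraph lend (rend π) (S : Set (Fin b × Fin a × Γ)) ≤
      endGraph lend (rend π) Set.univ := endGraph_mono _ _ (Set.subset_univ _)
  have hdeg : ∀ v, ((endGraph lend (rend π)
      (S : Set (Fin b × Fin a × Γ))).neighborSet v).ncard ≤ a + b := by
    intro v
    refine le_trans (Set.ncard_le_ncard ?_ (Set.toFinite _)) ((hG a b Γ inferInstance inferInstance π hπ).2 v)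
    intro w hw
    exact hle hw
  have hsp : ∀ P : Finset ((Fin b × Γ) ⊕ (Fin a × Γ)), P.Nonempty → P.card ≤ g →
      eIn (endGraph lend (rend π) (S : Set (Fin b × Fin a × Γ))) P + 2 ≤ 2 * P.card := by
    intro P hP hPg
    have h1 := hE _ inferInstance (endGraph lend (rend π) Set.univ) g hnb P hP hPg
    have h2 := eIn_mono hle P
    omega
  have hnum : 2 * (m + 3) * W.card ≤
      m * eIn (endGraph lend (rend π) (S : Set (Fin b × Fin a × Γ))) W := by
    have h1 := two_mul_card_le_eIn π S W hW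
    calc 2 * (m + 3) * W.card = 2 * ((m + 3) * W.card) := by ring
      _ ≤ 2 * (m * S.card) := Nat.mul_le_mul_left 2 hcard
      _ = m * (2 * S.card) := by ring
      _ ≤ _ := Nat.mul_le_mul_left m h1
  obtain ⟨f, hf1, hf2, hf3⟩ := hC _ inferInstance
    (endGraph lend (rend π) (S : Set (Fin b × Fin a × Γ))) (a + b) m g hm hdeg hg hsp W hWne hnum
  refine hF _ _ lend (rend π) (lg π) (S : Set (Fin b × Fin a × Γ)) ?_ ?_
    (fun i => (f i : Set _)) hf1 ?_ ?_
  · intro x; simp [lend, rend]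
  · intro x y hxy h
    refine ⟨hxy, ?_⟩
    rcases h with h | h | h | h
    · exact Or.inl h
    · simp [lend, rend] at h
    · simp [lend, rend] at h
    · exact Or.inr h
  · intro i j hij
    exact Finset.disjoint_coe.mpr (hf2 i j hij)
  · intro i j hij
    obtain ⟨u, hu, v, hv, huv⟩ := hf3 i j hij
    exact ⟨u, hu, v, hv, huv⟩

theorem main (hC : GoalC) (hD : GoalD) (hE : GoalE) (hF : GoalF) (hG : GoalG) (hH : GoalH)
    (hI : GoalI) (a b : ℕ) (ha : 2 ≤ a) (hb : 2 ≤ b) :
    (1 : ℝ) - 1 / a - 1 / b ≤ pd (a + b - 2) := by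
  classical
  have ha0 : (0 : ℝ) < a := by exact_mod_cast (by omega : 0 < a)
  have hb0 : (0 : ℝ) < b := by exact_mod_cast (by omega : 0 < b)
  unfold pd
  apply le_csInf (pd_set_nonempty _)
  intro μ hμ
  apply le_of_forall_pos_le_add
  intro δ hδ
  by_contra hlt
  push Not at hlt
  obtain ⟨N, hN⟩ := hμ (δ / 2) (by positivity)
  set c : ℝ := 1 / a + 1 / b with hc
  have hc0 : 0 < c := by positivity
  obtain ⟨m, hm⟩ := exists_nat_gt (6 * c / δ)
  have hm0 : (0 : ℝ) < m := lt_of_le_of_lt (by positivity) hm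
  have hm1 : 1 ≤ m := by exact_mod_cast hm0
  have hmδ : 3 / m * c ≤ δ / 2 := by
    rw [div_lt_iff₀ hδ] at hm
    rw [div_mul_eq_mul_div, div_le_iff₀ hm0]
    nlinarith
  set g : ℕ := 2 * ((a + b + 1) * m) + N with hg
  obtain ⟨Γ, instG, instF, π, hπ, hrel⟩ := hD (Fin b × Fin a) inferInstance g
  have hnb := hH a b g Γ instG instF π hπ hrel
  have h0b : 0 < b := by omega
  have h0a : 0 < a := by omega
  let x0 : Fin b × Fin a × Γ := (⟨0, h0b⟩, ⟨0, h0a⟩, 1)
  let Cs : Set (Fin b × Fin a × Γ) := ((lg π).connectedComponentMk x0).supp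
  let Cf : Finset (Fin b × Fin a × Γ) := Cs.toFinset
  have hCfmem : ∀ x, x ∈ Cf ↔ x ∈ Cs := fun x => Set.mem_toFinset
  have hCfne : Cf.Nonempty := ⟨x0, by rw [hCfmem]; rfl⟩
  have hclosed : ∀ x ∈ Cf, ∀ y, (lg π).Adj x y → y ∈ Cf := by
    intro x hx y hxy
    rw [hCfmem] at hx ⊢
    exact (SimpleGraph.ConnectedComponent.mem_supp_congr_adj _ hxy).mp hx
  obtain ⟨hI1, hI2, hI3⟩ := hI a b g Γ instG instF π ha hb hπ hnb Cf hCfne hclosed
  set W : Finset ((Fin b × Γ) ⊕ (Fin a × Γ)) := Cf.image lend ∪ Cf.image (rend π) with hW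
  have hWle : W.card ≤ (Cf.image lend).card + (Cf.image (rend π)).card :=
    Finset.card_union_le _ _
  have hWr : (W.card : ℝ) ≤ Cf.card * c := by
    have h1 : ((Cf.image lend).card : ℝ) = Cf.card * (1 / a) := by
      rw [← hI1]; push_cast; field_simp
    have h2 : ((Cf.image (rend π)).card : ℝ) = Cf.card * (1 / b) := by
      rw [← hI2]; push_cast; field_simp
    have h3 : (W.card : ℝ) ≤ (Cf.image lend).card + (Cf.image (rend π)).card := by
      exact_mod_cast hWle
    rw [h1, h2] at h3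
    rw [hc]; linarith
  have hcardC : N ≤ Cf.card := by
    have h1 : 2 * (Cf.image lend).card ≤ Cf.card := by
      rw [← hI1]; exact Nat.mul_le_mul_right _ ha
    have h2 : 2 * (Cf.image (rend π)).card ≤ Cf.card := by
      rw [← hI2]; exact Nat.mul_le_mul_right _ hb
    omega
  have hcardV : Fintype.card Cs = Cf.card := (Set.toFinset_card Cs).symm
  have hconn : ((lg π).induce Cs).Connected :=
    SimpleGraph.ConnectedComponent.connected_toSimpleGraph ((lg π).connectedComponentMk x0)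
  have hdeg : ∀ v : Cs, (((lg π).induce Cs).neighborSet v).ncard ≤ a + b - 2 := by
    intro v
    refine le_trans ?_ ((hG a b Γ instG instF π hπ).1 v.1)
    apply Set.ncard_le_ncard_of_injOn (fun w : Cs => (w : Fin b × Fin a × Γ))
    · intro w hw
      exact hw
    · exact fun x _ y _ h => Subtype.ext h
  have hpl := hN Cs inferInstance ((lg π).induce Cs) hconn hdeg (by rw [hcardV]; exact hcardC)
  obtain ⟨X, hX1, hX2⟩ := Nat.sInf_mem (planarization_set_nonempty ((lg π).induce Cs))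
  have hX1' : X.card = planarization ((lg π).induce Cs) := hX1
  -- the remaining vertices
  let S : Finset (Fin b × Fin a × Γ) := (Xᶜ).map (Function.Embedding.subtype _)
  have hScard : S.card = Cf.card - X.card := by
    rw [Finset.card_map, Finset.card_compl, hcardV]
  have hXle : X.card ≤ Cf.card := by rw [← hcardV]; exact Finset.card_le_univ X
  have hSmem : ∀ x, x ∈ S ↔ ∃ h : x ∈ Cs, (⟨x, h⟩ : Cs) ∉ X := by
    intro x
    simp only [S, Finset.mem_map, Finset.mem_compl, Function.Embedding.coe_subtype]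
    constructor
    · rintro ⟨y, hy, rfl⟩; exact ⟨y.2, hy⟩
    · rintro ⟨h, hx⟩; exact ⟨⟨x, h⟩, hx, rfl⟩
  have hSW : ∀ x ∈ S, lend x ∈ W ∧ rend π x ∈ W := by
    intro x hx
    obtain ⟨h, -⟩ := (hSmem x).mp hx
    have hx' : x ∈ Cf := (hCfmem x).mpr h
    rw [hW, Finset.mem_union, Finset.mem_union]
    exact ⟨Or.inl (Finset.mem_image_of_mem _ hx'), Or.inr (Finset.mem_image_of_mem _ hx')⟩
  have hWne : W.Nonempty := by
    obtain ⟨x, hx⟩ := hCfne
    exact ⟨lend x, by rw [hW, Finset.mem_union]; exact Or.inl (Finset.mem_image_of_mem _ hx)⟩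
  have hnC : (0 : ℝ) < Cf.card := by exact_mod_cast Finset.card_pos.mpr hCfne
  have hnum : (m + 3) * W.card ≤ m * S.card := by
    have hS : (S.card : ℝ) = Cf.card - X.card := by
      rw [hScard, Nat.cast_sub hXle]
    have hXr : (X.card : ℝ) ≤ (μ + δ / 2) * Cf.card := by
      rw [hX1', ← hcardV]; exact hpl
    have h1 : (Cf.card : ℝ) * (c + 3 / m * c) ≤ S.card := by
      rw [hS]
      have h2 : μ + δ < 1 - c := by rw [hc]; linarith
      nlinarith
    have h2 : ((m : ℝ) + 3) * W.card ≤ m * S.card := by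
      calc ((m : ℝ) + 3) * W.card ≤ (m + 3) * (Cf.card * c) := by
            apply mul_le_mul_of_nonneg_left hWr; positivity
        _ = m * (Cf.card * (c + 3 / m * c)) := by field_simp
        _ ≤ m * S.card := by apply mul_le_mul_of_nonneg_left h1; positivity
    exact_mod_cast h2
  have hmin := exists_minor hC hE hF hG π hπ m g hm1 (by omega) hnb S W hSW hWne hnum
  apply hX2.1
  let φ : (lg π).induce (S : Set (Fin b × Fin a × Γ)) ↪g
      ((lg π).induce Cs).induce {v | v ∉ X} :=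
    { toFun := fun x => ⟨⟨x.1, ((hSmem x.1).mp x.2).1⟩, ((hSmem x.1).mp x.2).2⟩
      inj' := by
        intro x y h
        apply Subtype.ext
        simpa using h
      map_rel_iff' := by
        intro x y
        rfl }
  exact hmin.of_embedding φ

end Pool.Agent.Helper60.Plz
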